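import Pool.Agent.TH812.GV2.Duals

/-!
Commuting derivations dual to a family which is algebraically independent over a finitely generated
field.
-/

set_option autoImplicit false

open FF Pool.Agent.W603.LV Pool.Agent.W603.PV Pool.Agent.TH145.GH Pool.Agent.TH145.MG
open AlgebraicIndependent

namespace Pool.Agent.Y735.V

open Pool.Agent.TH812.GV Pool.Agent.TH812.GV2

theorem cl_iff_acl {k0 F : Type} [Field k0] [Field F] [Algebra k0 F] (S : Set F) (w : F) :
    w ∈ cl k0 S ↔ w ∈ acl (Set.range (algebraMap k0 F) ∪ S) := by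
  have h1 : (IntermediateField.adjoin k0 S).toSubfield =
      Subfield.closure (Set.range (algebraMap k0 F) ∪ S) := IntermediateField.adjoin_toSubfield _ _
  rw [mem_cl, mem_acl, ← h1]
  exact Iff.rfl

theorem ksum_apply {k0 K ι : Type} [Field k0] [Field K] [Algebra k0 K] (s : Finset ι)
    (D : ι → Derivation k0 K K) (x : K) : (∑ i ∈ s, D i) x = ∑ i ∈ s, D i x := by
  classical
  induction s using Finset.induction_on with
  | empty => simp
  | insert a s ha ih => rw [Finset.sum_insert ha, Finset.sum_insert ha, Derivation.add_apply, ih]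

theorem exists_duals3 {k0 k F0 F : Type} [Field k0] [Field k] [Field F0] [Field F] [Algebra k0 k]
    [Algebra k F] [Algebra k0 F] [IsScalarTower k0 k F] [Algebra k0 F0] [Algebra F0 F]
    [IsScalarTower k0 F0 F] [IsAlgClosed k] [CharZero k] [IsFF k F]
    (hfg : ∃ S : Finset F0, IntermediateField.adjoin k0 (S : Set F0) = ⊤) {β : Type}
    [Finite β] (c : β → F) (hc : AlgebraicIndependent F0 c) :
    ∃ D : β → Derivation ℤ F F, (∀ b, GoodS k (D b)) ∧
      (∀ b (r : F0), D b (algebraMap F0 F r) = 0) ∧
      (∀ b b', (b = b' → D b (c b') = 1) ∧ (b ≠ b' → D b (c b') = 0)) ∧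
      ∀ b b' a, D b (D b' a) = D b' (D b a) := by
  classical
  obtain ⟨S0, hS0⟩ := hfg
  have hF : CharZero F := charZero_of_injective_algebraMap (algebraMap k F).injective
  have hk0 : CharZero k0 := by
    constructor
    intro a b hab
    have h1 := congrArg (algebraMap k0 k) hab
    rw [map_natCast, map_natCast] at h1
    exact Nat.cast_injective h1
  have hF0 : CharZero F0 := charZero_of_injective_algebraMap (algebraMap k0 F0).injective
  obtain ⟨t, ht⟩ := IsFF.exists_transcendental (k := k) (K := F)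
  obtain ⟨ιy, y, hy⟩ := exists_isTranscendenceBasis' k0 k
  have hz := hy.sumElim_comp (IsFF.basis ht)
  obtain ⟨z, hzd⟩ : ∃ z : Unit ⊕ ιy → F, z = Sum.elim (fun _ => t) (algebraMap k F ∘ y) := ⟨_, rfl⟩
  rw [← hzd] at hz
  -- the dual derivations of the basis
  have hE : ∀ j : Unit ⊕ ιy, ∃ E : Derivation k0 F F, ∀ i, E (z i) = if i = j then 1 else 0 :=
    fun j => Pool.Agent.W602.GT.exists_der z hz _
  choose E hE using hE
  have hSem : ∀ j, Sem k ((E j).restrictScalars ℤ) := by
    intro j
    obtain ⟨S, hS⟩ : ∃ S : Set F, S = Set.range (algebraMap k0 F) ∪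
      Set.range (algebraMap k F ∘ y) := ⟨_, rfl⟩
    have hkr : IsAlgClosed (algebraMap k F).fieldRange :=
      IsAlgClosed.of_ringEquiv k _ (RingHom.rangeRestrictFieldEquiv (algebraMap k F))
    have hSk : acl S ≤ (algebraMap k F).fieldRange := by
      refine acl_of_isAlgClosed hkr ?_
      rw [hS]
      rintro _ (⟨r, rfl⟩ | ⟨i, rfl⟩)
      · exact ⟨algebraMap k0 k r, (IsScalarTower.algebraMap_apply k0 k F r).symm⟩
      · exact ⟨y i, rfl⟩
    have hkS : ∀ r : k, algebraMap k F r ∈ acl S := by
      intro r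
      rw [mem_acl]
      have h1 : IsAlgebraic (IntermediateField.adjoin k0 (Set.range y)) r := by
        have := hy.isAlgebraic_field
        exact this.isAlgebraic r
      obtain ⟨p, hp0, hp⟩ := h1
      have h2 : ∀ a : IntermediateField.adjoin k0 (Set.range y),
          algebraMap k F (a : k) ∈ Subfield.closure S := by
        intro a
        have h3 : (a : k) ∈ Subfield.closure (Set.range (algebraMap k0 k) ∪ Set.range y) := by
          rw [← IntermediateField.adjoin_toSubfield]
          exact a.2
        have h4 : Subfield.closure (Set.range (algebraMap k0 k) ∪ Set.range y) ≤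
            (Subfield.closure S).comap (algebraMap k F) := by
          rw [Subfield.closure_le]
          rintro _ (⟨r, rfl⟩ | ⟨i, rfl⟩)
          · refine Subfield.subset_closure ?_
            rw [hS]
            exact Or.inl ⟨r, IsScalarTower.algebraMap_apply k0 k F r⟩
          · refine Subfield.subset_closure ?_
            rw [hS]
            exact Or.inr ⟨i, rfl⟩
        exact h4 h3
      let φ : IntermediateField.adjoin k0 (Set.range y) →+* Subfield.closure S :=
        { toFun := fun a => ⟨algebraMap k F (a : k), h2 a⟩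
          map_one' := Subtype.ext (map_one (algebraMap k F))
          map_mul' := fun a b => Subtype.ext (map_mul (algebraMap k F) (a : k) b)
          map_zero' := Subtype.ext (map_zero (algebraMap k F))
          map_add' := fun a b => Subtype.ext (map_add (algebraMap k F) (a : k) b) }
      refine ⟨p.map φ, (Polynomial.map_ne_zero_iff φ.injective).2 hp0, ?_⟩
      have h5 := congrArg (algebraMap k F) hp
      rw [map_zero, Polynomial.aeval_def, Polynomial.hom_eval₂] at h5
      rw [Polynomial.aeval_def, Polynomial.eval₂_map]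
      exact h5
    intro r
    have h1 : (E j).restrictScalars ℤ (algebraMap k F r) ∈ acl S := by
      refine der_acl ((E j).restrictScalars ℤ) ?_ (hkS r)
      rw [hS]
      rintro s (⟨r, rfl⟩ | ⟨i, rfl⟩)
      · change E j (algebraMap k0 F r) ∈ _
        rw [Derivation.map_algebraMap]
        exact zero_mem _
      · change E j ((algebraMap k F ∘ y) i) ∈ _
        have h2 : (algebraMap k F ∘ y) i = z (Sum.inr i) := by rw [hzd]; rfl
        rw [h2, hE]
        split_ifs
        · exact one_mem _
        · exact zero_mem _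
    obtain ⟨r', hr'⟩ := hSk h1
    exact ⟨r', hr'.symm⟩
  -- finitely many elements of the basis suffice
  have hJ : ∃ J : Finset (Unit ⊕ ιy), (∀ b, c b ∈ cl k0 (z '' J)) ∧
      ∀ r : F0, algebraMap F0 F r ∈ cl k0 (z '' J) := by
    have h1 : Set.range c ∪ algebraMap F0 F '' (S0 : Set F0) ⊆
        (matroid k0 F).closure (Set.range z) := by
      intro w _
      rw [← mem_cl_iff, mem_cl]
      have := hz.isAlgebraic_field
      exact this.isAlgebraic _
    obtain ⟨I, hI, hIf, -, hIc⟩ :=
      Matroid.exists_subset_finite_closure_of_subset_closure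
        ((Set.finite_range c).union ((Finset.finite_toSet S0).image _)) h1
    have := hIf.fintype
    choose f hf using fun i : I => hI i.2
    have h2 : I ⊆ z '' (Finset.univ.image f : Finset (Unit ⊕ ιy)) := by
      intro w hw
      exact ⟨f ⟨w, hw⟩, Finset.mem_coe.2 (Finset.mem_image_of_mem _ (Finset.mem_univ _)),
        hf ⟨w, hw⟩⟩
    have h3 : ∀ w ∈ Set.range c ∪ algebraMap F0 F '' (S0 : Set F0),
        w ∈ cl k0 (z '' (Finset.univ.image f : Finset (Unit ⊕ ιy))) := fun w hw => by
      rw [mem_cl_iff]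
      exact (matroid k0 F).closure_mono h2 (hIc hw)
    refine ⟨Finset.univ.image f, fun b => h3 _ (Or.inl ⟨b, rfl⟩), fun r => ?_⟩
    have h4 : (⊤ : IntermediateField k0 F0) ≤
        (cl k0 (z '' (Finset.univ.image f : Finset (Unit ⊕ ιy)))).comap
          (IsScalarTower.toAlgHom k0 F0 F) := by
      rw [← hS0, IntermediateField.adjoin_le_iff]
      intro w hw
      exact h3 _ (Or.inr ⟨w, hw, rfl⟩)
    exact h4 (IntermediateField.mem_top (x := r))
  obtain ⟨J, hJ, hJ0⟩ := hJ
  obtain ⟨SJ, hSJ⟩ : ∃ SJ : Set F, SJ = Set.range (algebraMap k0 F) ∪ z '' J := ⟨_, rfl⟩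
  have hM : ∀ w, w ∈ cl k0 (z '' J) ↔ w ∈ acl SJ := fun w => by rw [hSJ]; exact cl_iff_acl _ _
  -- a basis adapted to this field
  have hci : (matroid F0 F).Indep (Set.range c) := hc.to_subtype_range
  obtain ⟨s, hs, hcs⟩ := hci.subset_isBasis_of_subset (X := (acl SJ : Set F)) (by
    rintro _ ⟨b, rfl⟩
    exact (hM _).1 (hJ b)) (by rw [matroid_e]; exact Set.subset_univ _)
  obtain ⟨t', ht', hst⟩ := hs.indep.exists_isBase_superset
  have htb : IsTranscendenceBasis F0 ((↑) : t' → F) := matroid_isBase_iff.1 ht'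
  have hsJ : ∀ w ∈ s, w ∈ acl SJ := fun w hw => hs.subset hw
  have hJs : ∀ w ∈ acl SJ, w ∈ acl (Set.range (algebraMap F0 F) ∪ s) := by
    intro w hw
    rw [← cl_iff_acl, mem_cl_iff]
    exact hs.subset_closure hw
  have hsJ' : acl (Set.range (algebraMap F0 F) ∪ s) ≤ acl SJ := by
    refine acl_le ?_
    rintro w (⟨r, rfl⟩ | hw)
    · exact (hM _).1 (hJ0 r)
    · exact hsJ w hw
  -- the dual derivations of the family
  have hD0 : ∀ b : β, ∃ D : Derivation F0 F F, ∀ w : t', D (w : F) =
      if (w : F) = c b then 1 else 0 := fun b =>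
    Pool.Agent.W602.GT.exists_der (fun w : t' => (w : F)) htb
      (fun w => if (w : F) = c b then 1 else 0)
  choose D0 hD0t using hD0
  have hct : ∀ b, c b ∈ t' := fun b => hst (hcs ⟨b, rfl⟩)
  have hD0 : ∀ b b', D0 b (c b') = if b = b' then 1 else 0 := by
    intro b b'
    have h2 := hD0t b ⟨c b', hct b'⟩
    rw [h2]
    by_cases h : b = b'
    · rw [h, if_pos rfl, if_pos rfl]
    · rw [if_neg h, if_neg fun h' => h (hc.injective h').symm]
  have hD0k : ∀ b (r : k0), D0 b (algebraMap k0 F r) = 0 := fun b r => by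
    rw [IsScalarTower.algebraMap_apply k0 F0 F, Derivation.map_algebraMap]
  have hD0J : ∀ b, ∀ w ∈ acl SJ, D0 b w ∈ acl SJ := by
    intro b w hw
    refine hsJ' (der_acl ((D0 b).restrictScalars ℤ) ?_ (hJs w hw))
    rintro v (⟨r, rfl⟩ | hv)
    · change D0 b (algebraMap F0 F r) ∈ _
      rw [Derivation.map_algebraMap]
      exact zero_mem _
    · change D0 b v ∈ _
      have := hD0t b ⟨v, hst hv⟩
      dsimp only at this
      rw [this]
      split_ifs
      · exact one_mem _
      · exact zero_mem _
  have hD0c : ∀ b b' a, D0 b (D0 b' a) = D0 b' (D0 b a) := by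
    intro b b' a
    have h1 : ⁅D0 b, D0 b'⁆ = 0 := by
      refine Pool.Agent.W602.GT.der_eq_zero ⁅D0 b, D0 b'⁆ (Set.range ((↑) : t' → F))
        htb.isAlgebraic_field ?_
      rintro _ ⟨w, rfl⟩
      rw [Derivation.commutator_apply, hD0t, hD0t]
      have h2 : ∀ (b : β) (p : Prop) [Decidable p], D0 b (if p then 1 else 0) = 0 := by
        intro b p _
        split_ifs
        · exact Derivation.map_one_eq_zero _
        · exact map_zero _
      rw [h2, h2, sub_self]
    have h2 := congrArg (fun X : Derivation F0 F F => X a) h1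
    rw [Derivation.commutator_apply] at h2
    exact sub_eq_zero.1 h2
  obtain ⟨Dk, hDk⟩ : ∃ Dk : β → Derivation k0 F F, Dk = fun b => ∑ j ∈ J, D0 b (z j) • E j :=
    ⟨_, rfl⟩
  have hsum : ∀ b a, (∑ j ∈ J, D0 b (z j) • (E j).restrictScalars ℤ) a = Dk b a := by
    intro b a
    rw [der_sum_apply, hDk]
    dsimp only
    rw [ksum_apply]
    rfl
  have hDkz : ∀ b i, Dk b (z i) = if i ∈ J then D0 b (z i) else 0 := by
    intro b i
    rw [← hsum, der_sum_apply]
    have h1 : ∀ j, (D0 b (z j) • (E j).restrictScalars ℤ) (z i) =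
        if i = j then D0 b (z j) else 0 := by
      intro j
      rw [Derivation.smul_apply]
      change D0 b (z j) • E j (z i) = _
      rw [hE]
      split_ifs
      · rw [smul_eq_mul, mul_one]
      · rw [smul_zero]
    rw [Finset.sum_congr rfl fun j _ => h1 j, Finset.sum_ite_eq]
  have hsame : ∀ b, ∀ w ∈ cl k0 (z '' J), Dk b w = D0 b w := by
    intro b w hw
    obtain ⟨u, hu⟩ := Dep.of_cl hw
    have h2 := hu ((D0 b).restrictScalars ℤ) (fun r => hD0k b r)
    have h3 : D0 b w = ∑ i ∈ J, u i * D0 b (z i) := h2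
    have h4 := hu ((Dk b).restrictScalars ℤ) (fun r => (Dk b).map_algebraMap r)
    have h5 : Dk b w = ∑ i ∈ J, u i * Dk b (z i) := h4
    rw [h3, h5]
    refine Finset.sum_congr rfl fun j hj => ?_
    rw [hDkz, if_pos hj]
  have hcom : ∀ b b' a, Dk b (Dk b' a) = Dk b' (Dk b a) := by
    intro b b' a
    have h1 : ⁅Dk b, Dk b'⁆ = 0 := by
      refine Pool.Agent.W602.GT.der_eq_zero ⁅Dk b, Dk b'⁆ (Set.range z)
        hz.isAlgebraic_field ?_
      rintro _ ⟨i, rfl⟩
      rw [Derivation.commutator_apply, hDkz, hDkz]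
      by_cases hi : i ∈ J
      · rw [if_pos hi, if_pos hi]
        have hzi : z i ∈ acl SJ := by
          rw [← hM]
          exact subset_cl ⟨i, hi, rfl⟩
        rw [hsame b _ ((hM _).2 (hD0J b' _ hzi)), hsame b' _ ((hM _).2 (hD0J b _ hzi)), hD0c,
          sub_self]
      · rw [if_neg hi, if_neg hi, map_zero, map_zero, sub_self]
    have h2 := congrArg (fun X : Derivation k0 F F => X a) h1
    rw [Derivation.commutator_apply] at h2
    exact sub_eq_zero.1 h2
  refine ⟨fun b => ∑ j ∈ J, D0 b (z j) • (E j).restrictScalars ℤ, fun b => ?_, fun b r => ?_,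
    fun b b' => ?_, fun b b' a => ?_⟩
  · exact GoodS.sum _ _ fun j _ => (GoodS.of_sem (hSem j)).smul _
  · rw [hsum, hsame b _ (hJ0 r), Derivation.map_algebraMap]
  · rw [hsum, hsame b _ (hJ b'), hD0]
    exact ⟨fun h => if_pos h, fun h => if_neg h⟩
  · simp only [hsum]
    exact hcom b b' a

end Pool.Agent.Y735.V
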