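import Pool.Agent.Y735.V.Vojta
import Pool.Agent.Y735.S.Ultra

/-!
Points over a fixed function field on generic surfaces.
-/

set_option autoImplicit false

open MvPolynomial FF Pool.Agent.W603.LV Pool.Agent.W603.PV Pool.Agent.TH145.GH
  Pool.Agent.TH145.MG Pool.Agent.W602.GT

namespace Pool.Agent.Y735.V

open Pool.Agent.TH812.GV Pool.Agent.TH812.GV2

/-- The derivations of a finite extension. -/
theorem exists_dataL {k0 k F0 F : Type} [Field k0] [Field k] [Field F0] [Field F] [IsAlgClosed k]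
    [CharZero k] [Algebra k0 k] [Algebra k F] [Algebra k0 F] [IsScalarTower k0 k F]
    [Algebra k0 F0] [Algebra F0 F] [IsScalarTower k0 F0 F] [IsFF k F]
    (hfg : ∃ S : Finset F0, IntermediateField.adjoin k0 (S : Set F0) = ⊤) {n d : ℕ}
    (hd : 0 < d)
    {H : MvPolynomial (Fin (n + 1)) F} (hH : H.IsHomogeneous d)
    (hgen : AlgebraicIndependent F0 fun I : {I : Fin (n + 1) →₀ ℕ // I.degree = d} =>
      H.coeff I.1) (L : Type) [Field L] [Algebra k L] [Algebra F L]
      [IsScalarTower k F L] [FiniteDimensional F L] [IsFF k L] :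
    ∃ (D' : (Fin (n + 1) →₀ ℕ) → Derivation ℤ L L) (e g : Place k L → ℤ) (N : ℕ)
      (Q : Fin (n + 1) → Fin (n + 1) → MvPolynomial (Fin (n + 1)) L),
      Data k (map (algebraMap F L) H) d D' e g ∧ (∀ I J a, D' I (D' J a) = D' J (D' I a)) ∧
      ∀ l, X l ^ N = ∑ i, Q l i * pderiv i (map (algebraMap F L) H) := by
  classical
  have hF : CharZero F := charZero_of_injective_algebraMap (algebraMap k F).injective
  have hdeg := finite_deg n d
  have := Fintype.ofFinite {I : Fin (n + 1) →₀ ℕ // I.degree = d}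
  obtain ⟨N, R, hR⟩ := exists_null' hd hH hgen
  obtain ⟨Db, hDbg, -, hDb, hDbc⟩ := exists_duals3 (k0 := k0) (k := k) (F0 := F0) (F := F) hfg
    (fun I : {I : Fin (n + 1) →₀ ℕ // I.degree = d} => H.coeff I.1) hgen
  obtain ⟨D, hD⟩ : ∃ D : (Fin (n + 1) →₀ ℕ) → Derivation ℤ F F, ∀ I, D I =
      if h : I.degree = d then Db ⟨I, h⟩ else 0 := ⟨_, fun _ => rfl⟩
  have hDd : ∀ I (h : I.degree = d), D I = Db ⟨I, h⟩ := fun I h => by rw [hD, dif_pos h]
  have hD0 : ∀ I : Fin (n + 1) →₀ ℕ, I.degree ≠ d → D I = 0 := fun I h => by rw [hD, dif_neg h]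
  have hgood : ∀ I, GoodS k (D I) := by
    intro I
    by_cases h : I.degree = d
    · rw [hDd I h]; exact hDbg _
    · rw [hD0 I h]; exact GoodS.zero
  have hcom : ∀ I J a, D I (D J a) = D J (D I a) := by
    intro I J a
    by_cases hI : I.degree = d
    · by_cases hJ : J.degree = d
      · rw [hDd I hI, hDd J hJ]; exact hDbc _ _ _
      · rw [hD0 J hJ, Derivation.zero_apply, Derivation.zero_apply, map_zero]
    · rw [hD0 I hI, Derivation.zero_apply, Derivation.zero_apply, map_zero]
  choose q hq0 hqf hq using hgood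
  have hfinI : {I : Fin (n + 1) →₀ ℕ | I.degree = d}.Finite :=
    (Finsupp.finite_of_degree_le d).subset fun I hI => le_of_eq hI
  obtain ⟨Q, hQ⟩ : ∃ Q : Place k F → ℤ, ∀ v, Q v = ∑ I ∈ hfinI.toFinset, q I v :=
    ⟨_, fun _ => rfl⟩
  have hQ0 : ∀ v, 0 ≤ Q v := fun v => by
    rw [hQ]
    exact Finset.sum_nonneg fun I _ => hq0 I v
  have hQf : {v | Q v ≠ 0}.Finite := by
    have h1 : (⋃ I ∈ hfinI.toFinset, {v | q I v ≠ 0}).Finite :=
      hfinI.toFinset.finite_toSet.biUnion fun I _ => hqf I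
    refine h1.subset fun v hv => ?_
    by_contra hcon
    simp only [Set.mem_iUnion, not_exists, Set.mem_ofPred_eq, not_not] at hcon
    apply hv
    rw [hQ]
    exact Finset.sum_eq_zero fun I hI => hcon I hI
  have hQle : ∀ (I : Fin (n + 1) →₀ ℕ), I.degree = d → ∀ v, q I v ≤ Q v := by
    intro I hI v
    rw [hQ]
    exact Finset.single_le_sum (f := fun I => q I v) (fun I _ => hq0 I v)
      (by rw [Set.Finite.mem_toFinset]; exact hI)
  obtain ⟨C1, hC1⟩ := sum_loss (k := k) hQ0 hQf
  -- the poles of the coefficients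
  obtain ⟨G, hG0, hGf, hG⟩ := exists_poles (κ := k)
    ((H.support.image fun u => H.coeff u) ∪ Finset.univ.biUnion fun p : Fin (n + 1) × Fin (n + 1)
      => (R p.1 p.2).support.image fun u => (R p.1 p.2).coeff u)
  obtain ⟨C3, hC3⟩ := sum_under (k := k) hG0 hGf
  have hLz : CharZero L := charZero_of_injective_algebraMap (algebraMap k L).injective
  choose D' hD' hDl using fun I => hq I L
  obtain ⟨HL, hHL⟩ : ∃ HL, HL = map (algebraMap F L) H := ⟨_, rfl⟩
  obtain ⟨hqfin, hqsum⟩ := hC1 L
  obtain ⟨hufin, husum⟩ := hC3 L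
  obtain ⟨el, hel⟩ : ∃ el : Place k L → ℤ, ∀ P, el P =
    ((ram F P : ℤ) - 1) + ram F P * Q (under F P) := ⟨_, fun _ => rfl⟩
  obtain ⟨gl, hgl⟩ : ∃ gl : Place k L → ℤ, ∀ P, gl P = ram F P * G (under F P) :=
    ⟨_, fun _ => rfl⟩
  have hram : ∀ P : Place k L, (1 : ℤ) ≤ ram F P := fun P => by
    have := (ram_spec (F := F) P).1
    omega
  have hgl0 : ∀ P, 0 ≤ gl P := fun P => by
    rw [hgl]
    exact mul_nonneg (by positivity) (hG0 _)
  have hel0 : ∀ P, 0 ≤ el P := fun P => by
    rw [hel]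
    have h1 := hram P
    have h2 : 0 ≤ (ram F P : ℤ) * Q (under F P) := mul_nonneg (by positivity) (hQ0 _)
    linarith
  have hpole : ∀ z : F, (∀ v, Ge v (-G v) z) → ∀ P : Place k L, Ge P (-gl P) (algebraMap F L z) := by
    intro z hz P
    by_cases hz0 : z = 0
    · rw [hz0, map_zero]; exact Or.inl rfl
    · right
      have h1 := (hz (under F P)).resolve_left hz0
      rw [ord_under, hgl]
      have h2 := hram P
      nlinarith
  have hefin : {P | el P ≠ 0}.Finite := by simp only [hel]; exact hqfin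
  have hgfin : {P | gl P ≠ 0}.Finite := by simp only [hgl]; exact hufin
  have hcoefz : ∀ p : MvPolynomial (Fin (n + 1)) F, (∀ u ∈ p.support, ∀ v, Ge v (-G v) (p.coeff u)) →
      ∀ u v, Ge v (-G v) (p.coeff u) := by
    intro p hp u v
    by_cases hu : u ∈ p.support
    · exact hp u hu v
    · rw [notMem_support_iff.1 hu]; exact Or.inl rfl
  have hdat : Data k HL d D' el gl := by
    rw [hHL]
    refine Data.of_null hd (hH.map _) ?_ hel0 hgl0 ?_ ?_ ?_ N
      (fun l i => map (algebraMap F L) (R l i)) ?_ ?_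
    · intro I J hI hJ
      rw [coeff_map, hD', hDd I hI]
      constructor
      · intro h
        subst h
        have := (hDb ⟨I, hI⟩ ⟨I, hJ⟩).1 rfl
        dsimp only at this
        rw [this, map_one]
      · intro h
        have := (hDb ⟨I, hI⟩ ⟨J, hJ⟩).2 fun h' => h (congrArg Subtype.val h')
        dsimp only at this
        rw [this, map_zero]
    · intro P f hf I hI
      obtain ⟨δ, hδ⟩ := exists_locd P
      obtain ⟨h1, h2⟩ := hDl I P
      have h3 := h2 δ hδ 0 f hf
      have h4 := h1.mul (hδ.2.2 f hf)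
      have h5 : D' I f = D' I (unif P) * δ f + (D' I f - D' I (unif P) * δ f) := by ring
      have h6 := hQle I hI (under F P)
      have h7 := hram P
      have h8 : (ram F P : ℤ) * q I (under F P) ≤ ram F P * Q (under F P) :=
        mul_le_mul_of_nonneg_left h6 (by omega)
      rw [h5]
      refine Ge.add (h4.mono ?_) (h3.mono ?_)
      · rw [hel]; linarith
      · rw [hel]; linarith
    · intro P u
      rw [coeff_map]
      refine hpole _ (fun v => ?_) P
      exact hcoefz H (fun u hu v => hG v _ (Finset.mem_union_left _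
        (Finset.mem_image.2 ⟨u, hu, rfl⟩))) u v
    · refine (hefin.union hgfin).subset fun P hP => ?_
      rcases hP with hP | hP
      · exact Or.inl hP
      · exact Or.inr hP
    · intro l
      have h1 := congrArg (map (algebraMap F L)) (hR l)
      rw [map_pow, map_X, map_sum] at h1
      rw [h1]
      exact Finset.sum_congr rfl fun i _ => by rw [map_mul, pderiv_map]
    · intro P l i u
      rw [coeff_map]
      refine hpole _ (fun v => ?_) P
      exact hcoefz (R l i) (fun u hu v => hG v _ (Finset.mem_union_right _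
        (Finset.mem_biUnion.2 ⟨(l, i), Finset.mem_univ _, Finset.mem_image.2 ⟨u, hu, rfl⟩⟩))) u v
  have hcomL : ∀ I J a, D' I (D' J a) = D' J (D' I a) := by
    intro I J a
    have h1 := zero_of_alg (F := F) (L := L) ⁅D' I, D' J⁆ (fun a => by
      rw [Derivation.commutator_apply, hD', hD', hD', hD', hcom, sub_self]) a
    rw [Derivation.commutator_apply] at h1
    exact sub_eq_zero.1 h1
  refine ⟨D', el, gl, N, fun l i => map (algebraMap F L) (R l i), hHL ▸ hdat, hcomL, ?_⟩
  intro l
  have h1 := congrArg (map (algebraMap F L)) (hR l)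
  rw [map_pow, map_X, map_sum] at h1
  rw [h1]
  exact Finset.sum_congr rfl fun i _ => by rw [map_mul, pderiv_map]

/-- The heights of the points of a generic surface over a function field. -/
theorem bounded_L {k0 k F0 F : Type} [Field k0] [Field k] [Field F0] [Field F] [IsAlgClosed k]
    [CharZero k] [Algebra k0 k] [Algebra k F] [Algebra k0 F] [IsScalarTower k0 k F]
    [Algebra k0 F0] [Algebra F0 F] [IsScalarTower k0 F0 F] [IsFF k F]
    (hfg : ∃ S : Finset F0, IntermediateField.adjoin k0 (S : Set F0) = ⊤) {d : ℕ}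
    (hd : 5 ≤ d)
    {H : MvPolynomial (Fin (3 + 1)) F} (hH : H.IsHomogeneous d)
    (hgen : AlgebraicIndependent F0 fun I : {I : Fin (3 + 1) →₀ ℕ // I.degree = d} =>
      H.coeff I.1) (L : Type) [Field L] [Algebra k L] [Algebra F L]
      [IsScalarTower k F L] [FiniteDimensional F L] :
    ∃ B : ℤ, ∀ x : Fin (3 + 1) → L, x ≠ 0 → aeval x H = 0 → pht k x ≤ B := by
  classical
  have hL : IsFF k L := isFF_of_finite (F := F)
  have hF : CharZero F := charZero_of_injective_algebraMap (algebraMap k F).injective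
  have hLz : CharZero L := charZero_of_injective_algebraMap (algebraMap k L).injective
  obtain ⟨D, e, g, N, Q, hdat, hc, hnull⟩ := exists_dataL (k0 := k0) (k := k) hfg (by omega) hH
    hgen L
  obtain ⟨G, hG⟩ : ∃ G, G = map (algebraMap F L) H := ⟨_, rfl⟩
  rw [← hG] at hdat hnull
  have hxG : ∀ x : Fin (3 + 1) → L, aeval x H = 0 → eval x G = 0 := by
    intro x hx
    rw [hG, eval_map, ← aeval_def]
    exact hx
  have hgenL : AlgebraicIndependent ℚ fun I : {I : Fin (3 + 1) →₀ ℕ // I.degree = d} =>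
      G.coeff I.1 := by
    have h1 : Pool.Agent.Y735.S.GenF d G := by
      rw [hG]
      exact (Pool.Agent.Y735.S.GenF.of_base hgen).map _
    exact h1.rat
  have hnl : ∀ x : Fin (3 + 1) → L, ¬ OnL G x := fun x =>
    no_lines (k := ℚ) (by omega) hdat.hom hgenL x
  rcases Nat.lt_or_ge d 6 with hd6 | hd6
  · obtain rfl : d = 5 := by omega
    have hGF : Pool.Agent.Y735.S.GenF 5 G := by
      rw [hG]
      exact (Pool.Agent.Y735.S.GenF.of_base hgen).map _
    choose B hB using fun l0 => Pool.Agent.Y735.S.bounded5 hdat hnull hGF l0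
    refine ⟨max (6 * CC 3 e g + 2 * ∑ᶠ P, g P) (∑ l0, ∑ _j : Fin (3 + 1), max (B l0) 0),
      fun x hx hxH => ?_⟩
    obtain ⟨l0, hl0⟩ := Function.ne_iff.1 hx
    have hl0' : x l0 ≠ 0 := hl0
    obtain ⟨x', hx'⟩ : ∃ x' : Fin (3 + 1) → L, x' = (x l0)⁻¹ • x := ⟨_, rfl⟩
    have hx'l : x' l0 = 1 := by
      rw [hx', Pi.smul_apply, smul_eq_mul, inv_mul_cancel₀ hl0']
    have hx'0 : x' ≠ 0 := by
      intro h0
      rw [h0] at hx'l
      exact zero_ne_one hx'l
    have hx'F : eval x' G = 0 := by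
      rw [hx', eval_smul_hom hdat.hom, hxG x hxH, mul_zero]
    have hpht : pht k x = pht k x' := by
      rw [hx']
      exact (pht_scale ⟨l0, hl0'⟩ (inv_ne_zero hl0')).symm
    rw [hpht]
    rcases Pool.Agent.Y735.S.ineq5 hdat hc hx'F hx'0 with h1 | h1 | h1
    · exact absurd h1 (hnl x')
    · exact h1.trans (le_max_left _ _)
    · refine le_trans ?_ (le_max_right _ _)
      have h2 := pht_le (k := k) x' (l := l0) (by rw [hx'l]; exact one_ne_zero)
      refine h2.trans ?_
      have h3 : ∑ j, hgt k (x' j / x' l0) ≤ ∑ _j : Fin (3 + 1), max (B l0) 0 := by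
        refine Finset.sum_le_sum fun j _ => ?_
        rw [hx'l, div_one]
        exact (hB l0 x' hx'l hx'F h1 j).trans (le_max_left _ _)
      refine h3.trans ?_
      exact Finset.single_le_sum (f := fun l0 => ∑ _j : Fin (3 + 1), max (B l0) 0)
        (fun l _ => Finset.sum_nonneg fun _ _ => le_max_right _ _) (Finset.mem_univ l0)
  · refine ⟨(d + 1) * CC 3 e g + 2 * ∑ᶠ P, g P, fun x hx hxH => ?_⟩
    exact (ineqL hdat hc (by norm_num) (by omega) (hxG x hxH) hx).resolve_left (hnl x)

end Pool.Agent.Y735.V
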